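import Pool.Agent.X136.OPeierls

set_option autoImplicit false

namespace Pool.Agent.X136.OP

open MeasureTheory
open scoped ENNReal

/-- an oriented step to an open site -/
def R (O : Set (ℤ × ℤ)) (a b : ℤ × ℤ) : Prop := (b = a + v 0 ∨ b = a + v 1) ∧ b ∈ O

/-- the forward cluster of the origin -/
def clus (O : Set (ℤ × ℤ)) : Set (ℤ × ℤ) := {w | Relation.ReflTransGen (R O) (0, 0) w}

/-- extension of a finite word -/
def ext {n : ℕ} (u : Fin n → Fin 3) (k : ℕ) : Fin 3 := if h : k < n then u ⟨k, h⟩ else 0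

theorem clus_nonneg {O : Set (ℤ × ℤ)} {w : ℤ × ℤ} (h : w ∈ clus O) : 0 ≤ w.1 ∧ 0 ≤ w.2 := by
  induction (show Relation.ReflTransGen (R O) (0, 0) w from h) with
  | refl => exact ⟨le_refl _, le_refl _⟩
  | tail h1 h2 ih =>
    have ih := ih h1
    rcases h2.1 with rfl | rfl
    · rw [v0]; exact ⟨by simp; omega, by simpa using ih.2⟩
    · rw [v1]; exact ⟨by simpa using ih.1, by simp; omega⟩

theorem finite_imp {O : Set (ℤ × ℤ)} (hfin : (clus O).Finite) :
    ∃ n : ℕ, ∃ u : Fin (n + 1) → Fin 3, n + 1 ≤ 4 * (cl (ext u) (n + 1)).card ∧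
      ∀ z ∈ cl (ext u) (n + 1), z ∉ O := by
  have h0 : ((0, 0) : ℤ × ℤ) ∈ clus O := Relation.ReflTransGen.refl
  have hb : ((0, -1) : ℤ × ℤ) ∉ clus O := fun h => by
    have := (clus_nonneg h).2
    norm_num at this
  obtain ⟨n, hn, w, hw, hz⟩ := exists_contour hfin h0 hb
  obtain ⟨m, rfl⟩ : ∃ m, n = m + 1 := ⟨n - 1, by omega⟩
  refine ⟨m, fun k => w k, ?_⟩
  have hc : cl (ext (fun k : Fin (m + 1) => w k)) (m + 1) = cl w (m + 1) := by
    refine cl_congr fun k hk => ?_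
    unfold ext
    rw [dif_pos hk]
  rw [hc]
  refine ⟨hw, fun z hzz hO => ?_⟩
  obtain ⟨h1, h2⟩ := hz z hzz
  apply h1
  rcases h2 with h2 | h2
  · exact Relation.ReflTransGen.tail h2 ⟨Or.inl (by abel), hO⟩
  · exact Relation.ReflTransGen.tail h2 ⟨Or.inr (by abel), hO⟩

theorem measure_finite_le {Ω : Type*} [MeasurableSpace Ω] (μ : Measure Ω)
    (O : Ω → Set (ℤ × ℤ)) (δ : ℝ≥0∞) (hδ : δ ≤ 1)
    (h : ∀ F : Finset (ℤ × ℤ), μ {ω | ∀ z ∈ F, z ∉ O ω} ≤ (δ ^ 4) ^ F.card) :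
    μ {ω | (clus (O ω)).Finite} ≤ ∑' n : ℕ, (3 * δ) ^ (n + 1) := by
  classical
  let S : ℕ → Set Ω := fun n => ⋃ u : Fin (n + 1) → Fin 3,
    {ω | n + 1 ≤ 4 * (cl (ext u) (n + 1)).card ∧ ∀ z ∈ cl (ext u) (n + 1), z ∉ O ω}
  have h1 : {ω | (clus (O ω)).Finite} ⊆ ⋃ n, S n := by
    intro ω hω
    obtain ⟨n, u, h1, h2⟩ := finite_imp hω
    exact Set.mem_iUnion.2 ⟨n, Set.mem_iUnion.2 ⟨u, h1, h2⟩⟩
  have h2 : ∀ n, μ (S n) ≤ (3 * δ) ^ (n + 1) := by
    intro n
    have h3 : ∀ u : Fin (n + 1) → Fin 3,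
        μ {ω | n + 1 ≤ 4 * (cl (ext u) (n + 1)).card ∧ ∀ z ∈ cl (ext u) (n + 1), z ∉ O ω}
          ≤ δ ^ (n + 1) := by
      intro u
      by_cases hu : n + 1 ≤ 4 * (cl (ext u) (n + 1)).card
      · calc μ {ω | n + 1 ≤ 4 * (cl (ext u) (n + 1)).card ∧ ∀ z ∈ cl (ext u) (n + 1), z ∉ O ω}
            ≤ μ {ω | ∀ z ∈ cl (ext u) (n + 1), z ∉ O ω} := measure_mono fun ω hω => hω.2
          _ ≤ (δ ^ 4) ^ (cl (ext u) (n + 1)).card := h _
          _ = δ ^ (4 * (cl (ext u) (n + 1)).card) := (pow_mul _ _ _).symm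
          _ ≤ δ ^ (n + 1) := pow_le_pow_right_of_le_one' hδ hu
      · have : {ω | n + 1 ≤ 4 * (cl (ext u) (n + 1)).card ∧
            ∀ z ∈ cl (ext u) (n + 1), z ∉ O ω} = ∅ := by
          ext ω
          simp only [Set.mem_ofPred_eq, Set.mem_empty_iff_false, iff_false]
          exact fun h => hu h.1
        rw [this, measure_empty]
        exact zero_le
    calc μ (S n) ≤ ∑ u : Fin (n + 1) → Fin 3,
          μ {ω | n + 1 ≤ 4 * (cl (ext u) (n + 1)).card ∧ ∀ z ∈ cl (ext u) (n + 1), z ∉ O ω} :=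
          measure_iUnion_fintype_le _ _
      _ ≤ ∑ u : Fin (n + 1) → Fin 3, δ ^ (n + 1) := Finset.sum_le_sum fun u _ => h3 u
      _ = (3 * δ) ^ (n + 1) := by
          rw [Finset.sum_const, Finset.card_univ, Fintype.card_fun, Fintype.card_fin,
            Fintype.card_fin, mul_pow, nsmul_eq_mul]
          norm_num
  calc μ {ω | (clus (O ω)).Finite} ≤ μ (⋃ n, S n) := measure_mono h1
    _ ≤ ∑' n, μ (S n) := measure_iUnion_le _
    _ ≤ ∑' n : ℕ, (3 * δ) ^ (n + 1) := ENNReal.tsum_le_tsum h2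

/-- an infinite cluster of a locally finite relation continues through a successor -/
theorem exists_succ {α : Type*} {r : α → α → Prop} {z : α}
    (hfin : {b | r z b}.Finite) (hinf : {w | Relation.ReflTransGen r z w}.Infinite) :
    ∃ z', r z z' ∧ {w | Relation.ReflTransGen r z' w}.Infinite := by
  by_contra hcon
  push Not at hcon
  apply hinf
  have h1 : {w | Relation.ReflTransGen r z w} ⊆
      {z} ∪ ⋃ b ∈ {b | r z b}, {w | Relation.ReflTransGen r b w} := by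
    intro w hw
    rcases Relation.ReflTransGen.cases_head hw with h | ⟨b, hb, hbw⟩
    · exact Or.inl h.symm
    · exact Or.inr (Set.mem_biUnion hb hbw)
  refine Set.Finite.subset ((Set.finite_singleton z).union (hfin.biUnion fun b hb => ?_)) h1
  exact hcon b hb

end Pool.Agent.X136.OP
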