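import Mathlib

set_option autoImplicit false

/-!
# Peierls argument for oriented site percolation on `ℤ × ℤ`
-/

namespace Pool.Agent.X136.OP

open MeasureTheory
open scoped ENNReal

/-- the four unit vectors, counterclockwise -/
def v (i : ZMod 4) : ℤ × ℤ :=
  if i = 0 then (1, 0) else if i = 1 then (0, 1) else if i = 2 then (-1, 0) else (0, -1)

theorem v0 : v 0 = (1, 0) := rfl
theorem v1 : v 1 = (0, 1) := rfl
theorem v2 : v 2 = (-1, 0) := rfl
theorem v3 : v 3 = (0, -1) := rfl

theorem zcases (i : ZMod 4) : i = 0 ∨ i = 1 ∨ i = 2 ∨ i = 3 := by revert i; decide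

theorem v_add_two (i : ZMod 4) : v (i + 2) = -v i := by revert i; decide

theorem v_sub_one (i : ZMod 4) : v (i + 1) = -v (i - 1) := by revert i; decide

theorem v_sub_sub (i : ZMod 4) : v (i - 1 - 1) = -v i := by revert i; decide

/-- states of the boundary walker: a cell and a direction -/
abbrev St : Type := (ℤ × ℤ) × ZMod 4

/-- the walker at `s` has the cell on its left in `C` and the cell on its right outside `C` -/
def Valid (C : Set (ℤ × ℤ)) (s : St) : Prop := s.1 ∈ C ∧ s.1 + v (s.2 - 1) ∉ C

/-- the three moves: left, straight, right -/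
def step (t : Fin 3) (s : St) : St :=
  if t = 0 then (s.1, s.2 + 1) else if t = 1 then (s.1 + v s.2, s.2)
  else (s.1 + v s.2 + v (s.2 - 1), s.2 - 1)

open Classical in
/-- the turn taken by the walker around `C` -/
noncomputable def turn (C : Set (ℤ × ℤ)) (s : St) : Fin 3 :=
  if s.1 + v s.2 ∉ C then 0 else if s.1 + v s.2 + v (s.2 - 1) ∉ C then 1 else 2

/-- the walker around `C` -/
noncomputable def next (C : Set (ℤ × ℤ)) (s : St) : St := step (turn C s) s

theorem next_valid {C : Set (ℤ × ℤ)} {s : St} (h : Valid C s) : Valid C (next C s) := by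
  obtain ⟨z, i⟩ := s
  unfold next turn step
  by_cases h1 : z + v i ∉ C
  · simp only [h1, not_false_eq_true, if_true]
    refine ⟨h.1, ?_⟩
    simpa using h1
  · by_cases h2 : z + v i + v (i - 1) ∉ C
    · simp only [h1, h2, if_false, if_true, not_false_eq_true]
      refine ⟨not_not.1 h1, by simpa using h2⟩
    · simp only [h1, h2, if_false]
      refine ⟨by simpa using not_not.1 h2, ?_⟩
      have e := v_sub_sub i
      have h3 : z + v (i - 1) ∉ C := h.2
      simp only [Fin.isValue, Fin.reduceEq, if_false]
      rw [e]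
      have e4 : z + v i + v (i - 1) + -v i = z + v (i - 1) := by abel
      rw [e4]
      exact h3

theorem next_inj {C : Set (ℤ × ℤ)} {s s' : St} (h : Valid C s) (h' : Valid C s')
    (e : next C s = next C s') : s = s' := by
  obtain ⟨z, i⟩ := s
  obtain ⟨z', i'⟩ := s'
  have hz := h.1
  have hz2 := h.2
  have hz' := h'.1
  have hz2' := h'.2
  simp only at hz hz2 hz' hz2'
  unfold next turn step at e
  -- the cell behind the new state
  have key : ∀ (z : ℤ × ℤ) (i : ZMod 4), z + v (i - 1) ∉ C → z ∈ C →
      ∀ w j, (step (turn C (z, i)) (z, i)) = (w, j) →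
      (turn C (z, i) = 0 ↔ w - v j ∉ C) ∧
      (turn C (z, i) = 1 → (w - v j ∈ C ∧ w - v j + v (j - 1) ∉ C)) ∧
      (turn C (z, i) = 2 → (w - v j ∈ C ∧ w - v j + v (j - 1) ∈ C)) := by
    intro z i hz2 hz w j hw
    unfold turn step at hw
    unfold turn
    by_cases h1 : z + v i ∉ C
    · simp only [h1, not_false_eq_true, if_true] at hw ⊢
      obtain ⟨rfl, rfl⟩ := Prod.mk.inj hw
      have e1 : z - v (i + 1) = z + v (i - 1) := by rw [v_sub_one]; abel
      rw [e1]
      exact ⟨⟨fun _ => hz2, fun _ => trivial⟩, fun h => absurd h (by decide),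
        fun h => absurd h (by decide)⟩
    · by_cases h2 : z + v i + v (i - 1) ∉ C
      · simp only [h1, h2, if_false, if_true, not_false_eq_true] at hw ⊢
        obtain ⟨rfl, rfl⟩ := Prod.mk.inj hw
        have e1 : z + v i - v i = z := by abel
        rw [e1]
        exact ⟨⟨fun h => absurd h (by decide), fun h => absurd hz h⟩, fun _ => ⟨hz, hz2⟩,
          fun h => absurd h (by decide)⟩
      · simp only [h1, h2, if_false] at hw ⊢
        obtain ⟨rfl, rfl⟩ := Prod.mk.inj hw
        have e1 : z + v i + v (i - 1) - v (i - 1) = z + v i := by abel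
        have e2 := v_sub_sub i
        rw [e1, e2]
        have e3 : z + v i + -v i = z := by abel
        rw [e3]
        exact ⟨⟨fun h => absurd h (by decide), fun h => absurd (not_not.1 h1) h⟩,
          fun h => absurd h (by decide), fun _ => ⟨not_not.1 h1, hz⟩⟩
  obtain ⟨a1, a2, a3⟩ := key z i hz2 hz _ _ rfl
  have e' : step (turn C (z', i')) (z', i') = ((step (turn C (z, i)) (z, i)).1,
      (step (turn C (z, i)) (z, i)).2) := e.symm
  obtain ⟨b1, b2, b3⟩ := key z' i' hz2' hz' _ _ e'
  have hcases : ∀ t : Fin 3, t = 0 ∨ t = 1 ∨ t = 2 := by decide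
  have ht : turn C (z, i) = turn C (z', i') := by
    rcases hcases (turn C (z, i)) with h0 | h0 | h0
    · rw [h0]; exact (b1.2 (a1.1 h0)).symm
    · rw [h0]
      rcases hcases (turn C (z', i')) with h1 | h1 | h1
      · exact absurd (a2 h0).1 (b1.1 h1)
      · exact h1.symm
      · exact absurd (b3 h1).2 (a2 h0).2
    · rw [h0]
      rcases hcases (turn C (z', i')) with h1 | h1 | h1
      · exact absurd (a3 h0).1 (b1.1 h1)
      · exact absurd (a3 h0).2 (b2 h1).2
      · exact h1.symm
  have e2 : step (turn C (z, i)) (z, i) = step (turn C (z, i)) (z', i') := by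
    rw [ht] at e' ⊢; exact e'.symm
  unfold step at e2
  simp only at e2
  rcases hcases (turn C (z, i)) with h0 | h0 | h0
  · simp only [h0, if_true] at e2
    obtain ⟨e3, e4⟩ := Prod.mk.inj e2
    rw [e3, add_right_cancel e4]
  · simp only [h0, Fin.isValue, one_ne_zero, if_false, if_true] at e2
    obtain ⟨e3, e4⟩ := Prod.mk.inj e2
    rw [e4] at e3 ⊢
    rw [add_right_cancel e3]
  · simp only [h0, Fin.isValue, Fin.reduceEq, if_false] at e2
    obtain ⟨e3, e4⟩ := Prod.mk.inj e2
    have e5 : i = i' := sub_left_inj.1 e4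
    rw [e5] at e3 ⊢
    rw [add_right_cancel (add_right_cancel e3)]

/-- twice the tail of the edge of the walker -/
def tail (s : St) : ℤ × ℤ := s.1 + s.1 + v (s.2 - 1) - v s.2

theorem tail_step (t : Fin 3) (s : St) : tail (step t s) = tail s + (v s.2 + v s.2) := by
  obtain ⟨z, i⟩ := s
  have hcases : t = 0 ∨ t = 1 ∨ t = 2 := by revert t; decide
  have e2 := v_sub_sub i
  have e3 := v_sub_one i
  unfold tail step
  rcases hcases with rfl | rfl | rfl
  · simp only [if_true, add_sub_cancel_right]
    rw [e3]; abel
  · simp only [Fin.isValue, one_ne_zero, if_false, if_true]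
    abel
  · simp only [Fin.isValue, Fin.reduceEq, if_false]
    rw [e2]; abel

/-- the initial state -/
def s0 : St := ((0, 0), 0)

/-- the states visited when following the turns of the word `w` -/
def st (w : ℕ → Fin 3) : ℕ → St
  | 0 => s0
  | k + 1 => step (w k) (st w k)

/-- the sites which have to be closed -/
def cl (w : ℕ → Fin 3) (n : ℕ) : Finset (ℤ × ℤ) :=
  (((Finset.range n).filter fun k => (st w k).2 = 1).image fun k => (st w k).1 + v 0) ∪
  (((Finset.range n).filter fun k => (st w k).2 = 2).image fun k => (st w k).1 + v 1)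

theorem st_congr {w w' : ℕ → Fin 3} {n : ℕ} (h : ∀ k < n, w k = w' k) :
    ∀ k ≤ n, st w k = st w' k := by
  intro k
  induction k with
  | zero => intro _; rfl
  | succ k ih =>
    intro hk
    show step (w k) (st w k) = step (w' k) (st w' k)
    rw [ih (by omega), h k (by omega)]

theorem cl_congr {w w' : ℕ → Fin 3} {n : ℕ} (h : ∀ k < n, w k = w' k) : cl w n = cl w' n := by
  have h1 := st_congr h
  have e1 : ((Finset.range n).filter fun k => (st w k).2 = 1) =
      ((Finset.range n).filter fun k => (st w' k).2 = 1) :=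
    Finset.filter_congr fun k hk => by rw [h1 k (Finset.mem_range.1 hk).le]
  have e2 : ((Finset.range n).filter fun k => (st w k).2 = 2) =
      ((Finset.range n).filter fun k => (st w' k).2 = 2) :=
    Finset.filter_congr fun k hk => by rw [h1 k (Finset.mem_range.1 hk).le]
  unfold cl
  rw [e1, e2]
  congr 1
  · refine Finset.image_congr fun k hk => ?_
    have := (Finset.mem_filter.1 (Finset.mem_coe.1 hk)).1
    simp only [h1 k (Finset.mem_range.1 this).le]
  · refine Finset.image_congr fun k hk => ?_
    have := (Finset.mem_filter.1 (Finset.mem_coe.1 hk)).1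
    simp only [h1 k (Finset.mem_range.1 this).le]

/-- the reachable set is bounded by a contour: combinatorial form -/
theorem exists_contour {C : Set (ℤ × ℤ)} (hfin : C.Finite) (h0 : (0, 0) ∈ C)
    (hb : ((0, -1) : ℤ × ℤ) ∉ C) :
    ∃ n : ℕ, 1 ≤ n ∧ ∃ w : ℕ → Fin 3, n ≤ 4 * (cl w n).card ∧
      ∀ z ∈ cl w n, z ∉ C ∧ (z - v 0 ∈ C ∨ z - v 1 ∈ C) := by
  classical
  set f := next C with hf
  have hV0 : Valid C s0 := ⟨h0, by
    show ((0, 0) : ℤ × ℤ) + v (0 - 1) ∉ C
    have : v (0 - 1) = (0, -1) := by decide
    rw [this]; simpa using hb⟩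
  let Vs : Set St := {s | Valid C s}
  have hVfin : Vs.Finite := by
    refine (hfin.prod (Set.finite_univ (α := ZMod 4))).subset ?_
    rintro ⟨z, i⟩ hs
    exact ⟨hs.1, Set.mem_univ _⟩
  have hmaps : Set.MapsTo f Vs Vs := fun s hs => next_valid hs
  have hinj : Set.InjOn f Vs := fun s hs s' hs' e => next_inj hs hs' e
  have horb : ∀ k, f^[k] s0 ∈ Vs := by
    intro k
    exact (hmaps.iterate k) hV0
  -- periodicity
  have hnotinj : ∃ a b : ℕ, a < b ∧ f^[a] s0 = f^[b] s0 := by
    by_contra hcon
    push Not at hcon
    have hi : Function.Injective fun k : ℕ => f^[k] s0 := by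
      intro a b hab
      rcases lt_trichotomy a b with h | h | h
      · exact absurd hab (hcon a b h)
      · exact h
      · exact absurd hab.symm (hcon b a h)
    have h1 : (Set.range fun k : ℕ => f^[k] s0).Infinite := Set.infinite_range_of_injective hi
    apply h1
    refine hVfin.subset ?_
    rintro _ ⟨k, rfl⟩
    exact horb k
  have hper : ∃ n, 0 < n ∧ f^[n] s0 = s0 := by
    obtain ⟨a, b, hab, he⟩ := hnotinj
    refine ⟨b - a, by omega, ?_⟩
    induction a generalizing b with
    | zero => simpa using he.symm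
    | succ a ih =>
      have h1 : b = (b - 1) + 1 := by omega
      rw [h1, Function.iterate_succ_apply', Function.iterate_succ_apply'] at he
      have h2 := hinj (horb a) (horb (b - 1)) he
      have h3 := ih (b - 1) (by omega) h2
      have h4 : b - (a + 1) = b - 1 - a := by omega
      rw [h4]; exact h3
  set n := Nat.find hper with hn
  obtain ⟨hn0, hnp⟩ := Nat.find_spec hper
  rw [← hn] at hn0 hnp
  have hmin : ∀ m, 0 < m → m < n → f^[m] s0 ≠ s0 := fun m hm hmn h =>
    Nat.find_min hper hmn ⟨hm, h⟩
  -- the word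
  set w : ℕ → Fin 3 := fun k => turn C (f^[k] s0) with hw
  have hst : ∀ k, st w k = f^[k] s0 := by
    intro k
    induction k with
    | zero => rfl
    | succ k ih =>
      rw [Function.iterate_succ_apply']
      show step (w k) (st w k) = _
      rw [ih]; rfl
  -- distinctness
  have hdist : ∀ a < n, ∀ b < n, f^[a] s0 = f^[b] s0 → a = b := by
    have aux : ∀ a b, a < b → b < n → f^[a] s0 ≠ f^[b] s0 := by
      intro a
      induction a with
      | zero => intro b hb hbn h; exact hmin b hb hbn h.symm
      | succ a ih =>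
        intro b hab hbn he
        have h1 : b = (b - 1) + 1 := by omega
        rw [h1, Function.iterate_succ_apply', Function.iterate_succ_apply'] at he
        exact ih (b - 1) (by omega) (by omega) (hinj (horb a) (horb (b - 1)) he)
    intro a ha b hb he
    rcases lt_trichotomy a b with h | h | h
    · exact absurd he (aux a b h hb)
    · exact h
    · exact absurd he.symm (aux b a h ha)
  -- displacement
  have htail : ∀ k, tail (f^[k] s0) = tail s0 + ∑ j ∈ Finset.range k,
      (v (f^[j] s0).2 + v (f^[j] s0).2) := by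
    intro k
    induction k with
    | zero => simp
    | succ k ih =>
      rw [Function.iterate_succ_apply', Finset.sum_range_succ, ← add_assoc, ← ih]
      exact tail_step _ _
  have hsum : ∑ j ∈ Finset.range n, (v (f^[j] s0).2 + v (f^[j] s0).2) = 0 := by
    have := htail n
    rw [hnp] at this
    exact (left_eq_add.1 this)
  let cnt : ZMod 4 → ℕ := fun i => ((Finset.range n).filter fun k => (f^[k] s0).2 = i).card
  have hfst : ∀ j : ZMod 4, (v j + v j).1 = 2 * ((if j = 0 then 1 else 0) - (if j = 2 then 1 else 0)) := by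
    decide
  have hsnd : ∀ j : ZMod 4, (v j + v j).2 = 2 * ((if j = 1 then 1 else 0) - (if j = 3 then 1 else 0)) := by
    decide
  have hc02 : cnt 0 = cnt 2 := by
    have h1 := congrArg Prod.fst hsum
    rw [Prod.fst_sum] at h1
    simp only [hfst] at h1
    rw [← Finset.mul_sum, Finset.sum_sub_distrib] at h1
    simp only [Finset.sum_boole, Prod.fst_zero] at h1
    have h2 : ((cnt 0 : ℕ) : ℤ) - ((cnt 2 : ℕ) : ℤ) = 0 := by
      rcases mul_eq_zero.1 h1 with h | h
      · norm_num at h
      · exact h
    omega
  have hc13 : cnt 1 = cnt 3 := by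
    have h1 := congrArg Prod.snd hsum
    rw [Prod.snd_sum] at h1
    simp only [hsnd] at h1
    rw [← Finset.mul_sum, Finset.sum_sub_distrib] at h1
    simp only [Finset.sum_boole, Prod.snd_zero] at h1
    have h2 : ((cnt 1 : ℕ) : ℤ) - ((cnt 3 : ℕ) : ℤ) = 0 := by
      rcases mul_eq_zero.1 h1 with h | h
      · norm_num at h
      · exact h
    omega
  have htot : n = cnt 0 + cnt 1 + cnt 2 + cnt 3 := by
    have h1 : (Finset.range n).card = ∑ i : ZMod 4, cnt i :=
      Finset.card_eq_sum_card_fiberwise fun _ _ => Finset.mem_univ _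
    rw [Finset.card_range] at h1
    rw [h1]
    show ∑ i : Fin 4, cnt i = _
    rw [Fin.sum_univ_four]
    rfl
  have hA : cnt 1 ≤ (cl w n).card := by
    have h1 : ((((Finset.range n).filter fun k => (st w k).2 = 1).image
        fun k => (st w k).1 + v 0)).card = cnt 1 := by
      rw [Finset.card_image_of_injOn]
      · simp only [cnt, hst]
      · intro a ha b hb hab
        simp only [Finset.coe_filter, Finset.mem_range, Set.mem_ofPred_eq, hst] at ha hb hab
        refine hdist a ha.1 b hb.1 (Prod.ext (add_right_cancel hab) (ha.2.trans hb.2.symm))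
    rw [← h1]
    exact Finset.card_le_card Finset.subset_union_left
  have hB : cnt 2 ≤ (cl w n).card := by
    have h1 : ((((Finset.range n).filter fun k => (st w k).2 = 2).image
        fun k => (st w k).1 + v 1)).card = cnt 2 := by
      rw [Finset.card_image_of_injOn]
      · simp only [cnt, hst]
      · intro a ha b hb hab
        simp only [Finset.coe_filter, Finset.mem_range, Set.mem_ofPred_eq, hst] at ha hb hab
        refine hdist a ha.1 b hb.1 (Prod.ext (add_right_cancel hab) (ha.2.trans hb.2.symm))
    rw [← h1]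
    exact Finset.card_le_card Finset.subset_union_right
  refine ⟨n, hn0, w, by omega, ?_⟩
  intro z hz
  unfold cl at hz
  rw [Finset.mem_union, Finset.mem_image, Finset.mem_image] at hz
  rcases hz with ⟨k, hk, rfl⟩ | ⟨k, hk, rfl⟩
  · rw [Finset.mem_filter, hst] at hk
    have hv := horb k
    rw [hst]
    refine ⟨?_, Or.inl ?_⟩
    · have := hv.2
      rw [hk.2] at this
      simpa using this
    · simpa using hv.1
  · rw [Finset.mem_filter, hst] at hk
    have hv := horb k
    rw [hst]
    refine ⟨?_, Or.inr ?_⟩
    · have := hv.2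
      rw [hk.2] at this
      have e : (2 : ZMod 4) - 1 = 1 := by decide
      rwa [e] at this
    · simpa using hv.1

end Pool.Agent.X136.OP
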